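import Mathlib
import Pool.Agent.V11212.Deg.Deg

/-!
# Configuration spaces of graphs with sinks need not be aspherical

For the graph with one vertex and three loops, the vertex being a sink, the unordered
configuration space of two points has nonzero second homotopy group.
-/

set_option autoImplicit false

open Set Topology
open scoped unitInterval

namespace Pool.Agent.Results.MP_c15946_gt.ThreeLoops

/-- A finite graph, multiple edges and loops allowed. -/
structure FinGraph where
  /-- the vertices -/
  V : Type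
  /-- the edges -/
  E : Type
  finiteV : Finite V
  finiteE : Finite E
  /-- the first endpoint of an edge -/
  src : E → V
  /-- the second endpoint of an edge -/
  tgt : E → V

namespace FinGraph

variable (G : FinGraph)

/-- The disjoint union of the (discrete) vertex set and of one unit interval for each edge. -/
def Pre : Type := G.V ⊕ (G.E × I)

instance : TopologicalSpace G.Pre :=
  @instTopologicalSpaceSum G.V (G.E × I) ⊥ (@instTopologicalSpaceProd G.E I ⊥ _)

/-- The endpoints of the intervals are attached to the vertices. -/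
inductive Glue : G.Pre → G.Pre → Prop
  | src (e : G.E) : Glue (Sum.inr (e, 0)) (Sum.inl (G.src e))
  | tgt (e : G.E) : Glue (Sum.inr (e, 1)) (Sum.inl (G.tgt e))

/-- The graph as a topological space (a finite 1-dimensional CW complex). -/
def Space : Type := Quot G.Glue

instance : TopologicalSpace G.Space := inferInstanceAs (TopologicalSpace (Quot G.Glue))

/-- The point of the graph given by a vertex -/
def vertex (v : G.V) : G.Space := Quot.mk _ (Sum.inl v)

/-- The ordered configuration space `F_k(Γ, S)`: two particles can be at the same point only if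
this point is a sink. -/
def Conf (S : Set G.V) (k : ℕ) : Type :=
  {x : Fin k → G.Space // ∀ i j, i ≠ j → x i = x j → ∃ v ∈ S, x i = G.vertex v}

instance (S : Set G.V) (k : ℕ) : TopologicalSpace (G.Conf S k) :=
  inferInstanceAs (TopologicalSpace {x : Fin k → G.Space //
    ∀ i j, i ≠ j → x i = x j → ∃ v ∈ S, x i = G.vertex v})

/-- Two configurations are equivalent if they differ by a permutation of the particles. -/
def Perm (S : Set G.V) (k : ℕ) (x y : G.Conf S k) : Prop :=
  ∃ p : Equiv.Perm (Fin k), ∀ i, y.1 i = x.1 (p i)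

/-- The unordered configuration space `B_k(Γ, S)`. -/
def UConf (S : Set G.V) (k : ℕ) : Type := Quot (G.Perm S k)

instance (S : Set G.V) (k : ℕ) : TopologicalSpace (G.UConf S k) :=
  inferInstanceAs (TopologicalSpace (Quot (G.Perm S k)))

end FinGraph

/-- A space is aspherical if all its homotopy groups in degrees at least two vanish, at all
base points. -/
def Aspherical (X : Type) [TopologicalSpace X] : Prop :=
  ∀ n : ℕ, 2 ≤ n → ∀ x : X, Subsingleton (HomotopyGroup.Pi n X x)

open Pool.Agent.V11212.Deg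

/-- the graph with one vertex and three loops -/
def R3 : FinGraph where
  V := Unit
  E := Fin 3
  finiteV := inferInstance
  finiteE := inferInstance
  src _ := ()
  tgt _ := ()

/-- the 3-torus -/
abbrev T3 : Type := Fin 3 → AddCircle (1 : ℝ)

/-- the vertex -/
def v0 : R3.Space := R3.vertex ()

/-- the edges -/
def ed (e : Fin 3) (t : I) : R3.Space := Quot.mk _ (Sum.inr ((e, t) : Fin 3 × I))

lemma ed_zero (e : Fin 3) : ed e 0 = v0 := Quot.sound (FinGraph.Glue.src (G := R3) e)

lemma ed_one (e : Fin 3) : ed e 1 = v0 := Quot.sound (FinGraph.Glue.tgt (G := R3) e)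

lemma continuous_ed (e : Fin 3) : Continuous (ed e) := by
  unfold ed
  refine continuous_quot_mk.comp ?_
  let _ : TopologicalSpace R3.V := ⊥
  let _ : TopologicalSpace R3.E := ⊥
  have h1 : Continuous fun t : I => ((e, t) : R3.E × I) := by fun_prop
  exact (continuous_inr (X := R3.V)).comp h1

/-- the map to the torus on the disjoint union -/
noncomputable def prePhi : R3.Pre → T3 := fun x => match x with
  | Sum.inl _ => 0
  | Sum.inr (e, t) => Pi.single (M := fun _ : Fin 3 => AddCircle (1 : ℝ)) (e : Fin 3)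
      ((t : ℝ) : AddCircle (1 : ℝ))

lemma prePhi_glue (x y : R3.Pre) (h : R3.Glue x y) : prePhi x = prePhi y := by
  cases h with
  | src e => simp [prePhi]
  | tgt e =>
    have h : ((1 : ℝ) : AddCircle (1 : ℝ)) = 0 := AddCircle.coe_period 1
    simp [prePhi, h]

lemma continuous_prePhi : Continuous prePhi := by
  let _ : TopologicalSpace R3.V := ⊥
  let _ : TopologicalSpace R3.E := ⊥
  have _ : DiscreteTopology R3.V := ⟨rfl⟩
  have _ : DiscreteTopology R3.E := ⟨rfl⟩
  refine continuous_sum_dom.2 ⟨continuous_of_discreteTopology, ?_⟩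
  refine continuous_prod_of_discrete_left.2 fun e => ?_
  have h1 : Continuous fun t : I => ((t : ℝ) : AddCircle (1 : ℝ)) :=
    (AddCircle.continuous_mk' 1).comp continuous_subtype_val
  exact (continuous_single (A := fun _ : Fin 3 => AddCircle (1 : ℝ)) (e : Fin 3)).comp h1

/-- the map of the graph to the torus -/
noncomputable def phi : R3.Space → T3 := Quot.lift prePhi prePhi_glue

lemma continuous_phi : Continuous phi := continuous_quot_lift _ continuous_prePhi

lemma phi_v0 : phi v0 = 0 := rfl

lemma phi_ed (e : Fin 3) (t : I) : phi (ed e t) =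
    Pi.single (M := fun _ : Fin 3 => AddCircle (1 : ℝ)) e ((t : ℝ) : AddCircle (1 : ℝ)) := rfl

lemma phi_supp (x : R3.Space) : ∃ e : Fin 3, ∀ i, i ≠ e → phi x i = 0 := by
  induction x using Quot.ind with
  | mk x =>
    rcases x with x | ⟨e, t⟩
    · exact ⟨0, fun i _ => rfl⟩
    · refine ⟨e, fun i hi => ?_⟩
      change Pi.single (M := fun _ : Fin 3 => AddCircle (1 : ℝ)) (e : Fin 3)
        ((t : ℝ) : AddCircle (1 : ℝ)) i = 0
      exact Pi.single_eq_of_ne hi _

/-- all vertices are sinks -/
abbrev SS : Set R3.V := univ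

/-- the space -/
abbrev B2 : Type := R3.UConf SS 2

/-- the sum map on ordered configurations -/
noncomputable def prePsi (x : R3.Conf SS 2) : T3 := phi (x.1 0) + phi (x.1 1)

lemma prePsi_perm (x y : R3.Conf SS 2) (h : R3.Perm SS 2 x y) : prePsi x = prePsi y := by
  obtain ⟨p, hp⟩ := h
  unfold prePsi
  rw [hp 0, hp 1]
  have h2 := Fin.sum_univ_two (fun i => phi (x.1 (p i)))
  have h3 := Fin.sum_univ_two (fun i => phi (x.1 i))
  rw [← h2, ← h3]
  exact (Equiv.sum_comp p fun i => phi (x.1 i)).symm

/-- the sum map -/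
noncomputable def psi : B2 → T3 := Quot.lift prePsi prePsi_perm

lemma continuous_psi : Continuous psi := by
  refine continuous_quot_lift _ ?_
  unfold prePsi
  have h : ∀ i : Fin 2, Continuous fun x : R3.Conf SS 2 => x.1 i := fun i =>
    (continuous_apply i).comp continuous_subtype_val
  exact (continuous_phi.comp (h 0)).add (continuous_phi.comp (h 1))

lemma half_ne : ((1 / 2 : ℝ) : AddCircle (1 : ℝ)) ≠ 0 := by
  have _ : Fact ((0 : ℝ) < 1) := ⟨one_pos⟩
  intro h
  rw [AddCircle.coe_eq_zero_iff_of_mem_Ico (by constructor <;> norm_num)] at h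
  norm_num at h

lemma psi_ne (x : B2) : psi x ≠ fun _ => ((1 / 2 : ℝ) : AddCircle (1 : ℝ)) := by
  induction x using Quot.ind with
  | mk x =>
    intro h
    obtain ⟨e, he⟩ := phi_supp (x.1 0)
    obtain ⟨f, hf⟩ := phi_supp (x.1 1)
    have hex : ∀ e f : Fin 3, ∃ i, i ≠ e ∧ i ≠ f := by decide
    obtain ⟨i, hi1, hi2⟩ := hex e f
    have h1 : phi (x.1 0) i + phi (x.1 1) i = ((1 / 2 : ℝ) : AddCircle (1 : ℝ)) := congrFun h i
    rw [he i hi1, hf i hi2, add_zero] at h1
    exact half_ne h1.symm

lemma coe_eq_zero {t : I} (h : ((t : ℝ) : AddCircle (1 : ℝ)) = 0) : t = 0 ∨ t = 1 := by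
  have _ : Fact ((0 : ℝ) < 1) := ⟨one_pos⟩
  rcases eq_or_ne t 1 with h1 | h1
  · exact Or.inr h1
  · left
    have h2 : (t : ℝ) < 1 := lt_of_le_of_ne t.2.2 fun h => h1 (Subtype.ext h)
    rw [AddCircle.coe_eq_zero_iff_of_mem_Ico ⟨t.2.1, h2⟩] at h
    exact Subtype.ext h

lemma ed_of_coe {e : Fin 3} {t : I} (h : t = 0 ∨ t = 1) : ed e t = v0 := by
  rcases h with rfl | rfl
  · exact ed_zero e
  · exact ed_one e

/-- two particles on different edges -/
noncomputable def pair (i j : Fin 3) (hij : i ≠ j) (s t : I) : R3.Conf SS 2 :=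
  ⟨![ed i s, ed j t], by
    have key : ed i s = ed j t → ed i s = v0 ∧ ed j t = v0 := by
      intro h
      have h1 := congrArg phi h
      rw [phi_ed, phi_ed] at h1
      have h2 := congrFun h1 i
      have h3 := congrFun h1 j
      rw [Pi.single_eq_same, Pi.single_eq_of_ne hij] at h2
      rw [Pi.single_eq_same, Pi.single_eq_of_ne hij.symm] at h3
      exact ⟨ed_of_coe (coe_eq_zero h2), ed_of_coe (coe_eq_zero h3.symm)⟩
    intro a b hab h
    refine ⟨(), mem_univ _, ?_⟩
    change _ = v0
    fin_cases a <;> fin_cases b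
    · exact absurd rfl hab
    · exact (key h).1
    · exact (key h.symm).2
    · exact absurd rfl hab⟩

lemma continuous_pair (i j : Fin 3) (hij : i ≠ j) :
    Continuous fun z : I × I => pair i j hij z.1 z.2 := by
  refine Continuous.subtype_mk ?_ _
  refine continuous_pi fun a => ?_
  fin_cases a
  · exact (continuous_ed i).comp continuous_fst
  · exact (continuous_ed j).comp continuous_snd

/-- the class of two particles on different edges -/
noncomputable def up (i j : Fin 3) (hij : i ≠ j) (s t : I) : B2 := Quot.mk _ (pair i j hij s t)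

lemma continuous_up (i j : Fin 3) (hij : i ≠ j) :
    Continuous fun z : I × I => up i j hij z.1 z.2 :=
  continuous_quot_mk.comp (continuous_pair i j hij)

lemma psi_up (i j : Fin 3) (hij : i ≠ j) (s t : I) : psi (up i j hij s t) =
    Pi.single (M := fun _ : Fin 3 => AddCircle (1 : ℝ)) i ((s : ℝ) : AddCircle (1 : ℝ)) +
    Pi.single (M := fun _ : Fin 3 => AddCircle (1 : ℝ)) j ((t : ℝ) : AddCircle (1 : ℝ)) := rfl

/-- an endpoint -/
def IsEnd (t : I) : Prop := t = 0 ∨ t = 1

lemma isClosed_isEnd : IsClosed {t : I | IsEnd t} := by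
  have h : {t : I | IsEnd t} = {0, 1} := rfl
  rw [h]
  exact (Set.toFinite _).isClosed

open Classical in
/-- the map on the boundary of the cube -/
noncomputable def gmap (t : Fin 3 → I) : B2 :=
  if IsEnd (t 2) then up 0 1 (by decide) (t 0) (t 1)
  else if IsEnd (t 1) then up 0 2 (by decide) (t 0) (t 2)
  else up 1 2 (by decide) (t 1) (t 2)

lemma up_eq_first {i j k : Fin 3} (hij : i ≠ j) (hik : i ≠ k) {s t u : I} (ht : IsEnd t)
    (hu : IsEnd u) : up i j hij s t = up i k hik s u := by
  unfold up
  congr 1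
  apply Subtype.ext
  change ![ed i s, ed j t] = ![ed i s, ed k u]
  rw [ed_of_coe ht, ed_of_coe hu]

lemma up_eq_second {i j k : Fin 3} (hik : i ≠ k) (hjk : j ≠ k) {s t u : I} (hs : IsEnd s)
    (ht : IsEnd t) : up i k hik s u = up j k hjk t u := by
  unfold up
  congr 1
  apply Subtype.ext
  change ![ed i s, ed k u] = ![ed j t, ed k u]
  rw [ed_of_coe hs, ed_of_coe ht]

lemma up_swap {i j : Fin 3} (hij : i ≠ j) (s t : I) : up i j hij s t = up j i hij.symm t s := by
  refine Quot.sound ⟨Equiv.swap 0 1, ?_⟩
  intro a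
  fin_cases a
  · change ed j t = ![ed i s, ed j t] (Equiv.swap 0 1 0)
    rw [Equiv.swap_apply_left]
    rfl
  · change ed i s = ![ed i s, ed j t] (Equiv.swap 0 1 1)
    rw [Equiv.swap_apply_right]
    rfl

lemma gmap_two {t : Fin 3 → I} (h : IsEnd (t 2)) :
    gmap t = up 0 1 (by decide) (t 0) (t 1) := by
  unfold gmap
  rw [if_pos h]

lemma gmap_one {t : Fin 3 → I} (h : IsEnd (t 1)) :
    gmap t = up 0 2 (by decide) (t 0) (t 2) := by
  unfold gmap
  by_cases h2 : IsEnd (t 2)
  · rw [if_pos h2]
    exact up_eq_first _ _ h h2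
  · rw [if_neg h2, if_pos h]

lemma gmap_zero {t : Fin 3 → I} (h : IsEnd (t 0)) :
    gmap t = up 1 2 (by decide) (t 1) (t 2) := by
  by_cases h2 : IsEnd (t 2)
  · rw [gmap_two h2, up_swap]
    exact up_eq_first _ _ h h2
  · by_cases h1 : IsEnd (t 1)
    · rw [gmap_one h1]
      exact up_eq_second _ _ h h1
    · unfold gmap
      rw [if_neg h2, if_neg h1]

lemma single_of_end {t : I} (h : IsEnd t) : ((t : ℝ) : AddCircle (1 : ℝ)) = 0 := by
  rcases h with rfl | rfl
  · simp
  · exact AddCircle.coe_period 1

lemma psi_gmap {t : Fin 3 → I} (h : ∃ i, IsEnd (t i)) :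
    psi (gmap t) = fun i => ((t i : ℝ) : AddCircle (1 : ℝ)) := by
  obtain ⟨i, hi⟩ := h
  have hz := single_of_end hi
  fin_cases i
  · have hz' : ((t 0 : ℝ) : AddCircle (1 : ℝ)) = 0 := hz
    rw [gmap_zero hi, psi_up]
    funext j
    fin_cases j
    · simp [hz']
    · simp
    · simp
  · have hz' : ((t 1 : ℝ) : AddCircle (1 : ℝ)) = 0 := hz
    rw [gmap_one hi, psi_up]
    funext j
    fin_cases j
    · simp
    · simp [hz']
    · simp
  · have hz' : ((t 2 : ℝ) : AddCircle (1 : ℝ)) = 0 := hz
    rw [gmap_two hi, psi_up]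
    funext j
    fin_cases j
    · simp
    · simp
    · simp [hz']

/-- composition with a continuous map to the boundary of the cube is continuous -/
lemma continuous_gmap_comp {A : Type} [TopologicalSpace A] (q : A → Fin 3 → I)
    (hq : Continuous q) (hb : ∀ a, ∃ i, IsEnd (q a i)) : Continuous fun a => gmap (q a) := by
  have hqi : ∀ i, Continuous fun a => q a i := fun i => (continuous_apply i).comp hq
  refine LocallyFinite.continuous (f := fun i : Fin 3 => {a | IsEnd (q a i)})
    (locallyFinite_of_finite _) ?_ ?_ ?_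
  · ext a
    simp only [mem_iUnion, mem_univ, iff_true]
    exact hb a
  · intro i
    exact isClosed_isEnd.preimage (hqi i)
  · intro i
    fin_cases i
    · exact ((continuous_up 1 2 (by decide)).comp ((hqi 1).prodMk (hqi 2))).continuousOn.congr
        fun a ha => gmap_zero ha
    · exact ((continuous_up 0 2 (by decide)).comp ((hqi 0).prodMk (hqi 2))).continuousOn.congr
        fun a ha => gmap_one ha
    · exact ((continuous_up 0 1 (by decide)).comp ((hqi 0).prodMk (hqi 1))).continuousOn.congr
        fun a ha => gmap_two ha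

/-- the normalised direction map -/
noncomputable def dir (y : Fin 2 → I) : Fin 3 → ℝ := ‖gg (yy y)‖⁻¹ • gg (yy y)

lemma norm_gg_pos (y : Fin 2 → I) : 0 < ‖gg (yy y)‖ := norm_pos_iff.2 (gg_ne _)

lemma norm_dir (y : Fin 2 → I) : ‖dir y‖ = 1 := by
  unfold dir
  rw [norm_smul, norm_inv, norm_norm, inv_mul_cancel₀ (norm_gg_pos y).ne']

lemma continuous_dir : Continuous dir := by
  unfold dir
  have h : Continuous fun y : Fin 2 → I => gg (yy y) := continuous_gg.comp continuous_yy
  exact (h.norm.inv₀ fun y => (norm_gg_pos y).ne').smul h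

lemma dir_boundary {y : Fin 2 → I} (hy : y ∈ Cube.boundary (Fin 2)) : dir y = fun _ => -1 := by
  unfold dir
  rw [gg_of_norm (norm_yy_of_boundary hy)]
  have h : ‖(fun _ => -1 : Fin (2 + 1) → ℝ)‖ = 1 := by
    rw [pi_norm_const]
    simp
  rw [h]
  simp

/-- the map of the square to the boundary of the cube -/
noncomputable def qq (y : Fin 2 → I) : Fin 3 → I := fun i => tcl (dir y i)

lemma continuous_qq : Continuous qq := by
  unfold qq
  exact continuous_pi fun i => continuous_tcl.comp ((continuous_apply i).comp continuous_dir)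

lemma qq_end (y : Fin 2 → I) : ∃ i, IsEnd (qq y i) := by
  obtain ⟨i, hi⟩ := tcl_boundary (norm_dir y)
  exact ⟨i, hi⟩

lemma qq_val (y : Fin 2 → I) (i : Fin 3) : 2 * (qq y i : ℝ) - 1 = dir y i :=
  congrFun (yy_tcl (norm_dir y).le) i

lemma qq_boundary {y : Fin 2 → I} (hy : y ∈ Cube.boundary (Fin 2)) : qq y = fun _ => 0 := by
  funext i
  unfold qq
  rw [dir_boundary hy]
  exact tcl_neg_one

/-- the base point -/
noncomputable def x0 : B2 := gmap fun _ => 0

/-- the essential map of the square -/
noncomputable def pmap : C(Fin 2 → I, B2) :=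
  ⟨fun y => gmap (qq y), continuous_gmap_comp qq continuous_qq qq_end⟩

lemma pmap_mem : pmap ∈ GenLoop (Fin 2) B2 x0 := by
  intro y hy
  change gmap (qq y) = x0
  rw [qq_boundary hy]
  rfl

lemma psi_x0 : psi x0 = 0 := by
  unfold x0
  rw [psi_gmap ⟨0, Or.inl rfl⟩]
  funext i
  simp

lemma tcl_two (t : I) : tcl (2 * (t : ℝ) - 1) = t := by
  apply Subtype.ext
  rw [tcl_val (by have := t.2.1; linarith) (by have := t.2.2; linarith)]
  ring

lemma not_trivial : ¬ Subsingleton (HomotopyGroup.Pi 2 B2 x0) := by
  intro hsub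
  have heq : (Quotient.mk (GenLoop.Homotopic.setoid (Fin 2) x0) ⟨pmap, pmap_mem⟩ :
      HomotopyGroup (Fin 2) B2 x0) =
      Quotient.mk (GenLoop.Homotopic.setoid (Fin 2) x0) GenLoop.const :=
    @Subsingleton.elim _ hsub _ _
  obtain ⟨H⟩ : (GenLoop.Homotopic (⟨pmap, pmap_mem⟩ : GenLoop (Fin 2) B2 x0) GenLoop.const) :=
    Quotient.exact heq
  -- the homotopy in the torus
  have hcomp : ∀ i : Fin 3, Continuous fun u : I × (Fin 2 → I) => psi (H u) i := fun i =>
    (continuous_apply i).comp (continuous_psi.comp H.continuous)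
  let f : Fin 3 → C(I × (Fin 2 → I), AddCircle (1 : ℝ)) := fun i =>
    ⟨fun u => psi (H u) i, hcomp i⟩
  have hH0 : ∀ y, H (0, y) = gmap (qq y) := fun y => H.apply_zero y
  have hf0 : ∀ i y, f i (0, y) = ((qq y i : ℝ) : AddCircle (1 : ℝ)) := by
    intro i y
    change psi (H (0, y)) i = _
    rw [hH0, psi_gmap (qq_end y)]
  let y0 : Fin 2 → I := fun _ => 0
  have hy0 : y0 ∈ Cube.boundary (Fin 2) := ⟨0, Or.inl rfl⟩
  let cl : C(ℝ × (Fin 2 → ℝ), I × (Fin 2 → I)) :=
    ⟨fun v => (tcl v.1, fun i => tcl (v.2 i)),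
      (continuous_tcl.comp continuous_fst).prodMk
        (continuous_pi fun i => continuous_tcl.comp ((continuous_apply i).comp continuous_snd))⟩
  let em : C(I × (Fin 2 → I), ℝ × (Fin 2 → ℝ)) :=
    ⟨fun u => (2 * (u.1 : ℝ) - 1, fun i => 2 * (u.2 i : ℝ) - 1), by fun_prop⟩
  have hcl : ∀ u, cl (em u) = u := by
    intro u
    refine Prod.ext (tcl_two _) (funext fun i => tcl_two _)
  have cov := AddCircle.isCoveringMap_coe (1 : ℝ)
  have hlift : ∀ i : Fin 3, ∃ F : C(I × (Fin 2 → I), ℝ), F (0, y0) = qq y0 i ∧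
      ∀ u, ((F u : ℝ) : AddCircle (1 : ℝ)) = f i u := by
    intro i
    obtain ⟨F, ⟨h1, h2⟩, -⟩ := cov.existsUnique_continuousMap_lifts ((f i).comp cl)
      (em (0, y0)) (qq y0 i : ℝ) (by
        rw [ContinuousMap.comp_apply, hcl]
        exact (hf0 i y0).symm)
    refine ⟨F.comp em, h1, fun u => ?_⟩
    have h3 : ((F (em u) : ℝ) : AddCircle (1 : ℝ)) = f i (cl (em u)) := congrFun h2 (em u)
    rw [hcl] at h3
    exact h3
  choose F hF1 hF2 using hlift
  -- the lift at time zero
  have hz : ∀ i y, F i (0, y) = qq y i := by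
    intro i
    have h1 : (fun y => F i (0, y)) = fun y => ((qq y i : I) : ℝ) := by
      refine cov.eq_of_comp_eq ((F i).continuous.comp (by fun_prop))
        (continuous_subtype_val.comp ((continuous_apply i).comp continuous_qq)) ?_ y0 (hF1 i)
      funext y
      exact (hF2 i (0, y)).trans (hf0 i y)
    exact fun y => congrFun h1 y
  -- on the boundary
  have hbd : ∀ i t y, y ∈ Cube.boundary (Fin 2) → F i (t, y) = 0 := by
    intro i t y hy
    have h1 : ∀ s s' : I, F i (s, y) = F i (s', y) := by
      refine cov.const_of_comp ((F i).continuous.comp (by fun_prop)) ?_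
      intro s s'
      have h2 : ∀ s : I, (((F i (s, y) : ℝ)) : AddCircle (1 : ℝ)) = psi x0 i := by
        intro s
        rw [hF2 i (s, y)]
        change psi (H (s, y)) i = _
        have h3 : H (s, y) = x0 := by
          have h4 := H.eq_fst s hy
          rw [h4]
          exact pmap_mem y hy
        rw [h3]
      rw [h2 s, h2 s']
    rw [h1 t 0, hz, qq_boundary hy]
    rfl
  -- at time one
  have hone : ∀ i y, F i (1, y) = 0 := by
    intro i y
    have h1 : ∀ y y' : Fin 2 → I, F i (1, y) = F i (1, y') := by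
      refine cov.const_of_comp ((F i).continuous.comp (by fun_prop)) ?_
      intro y y'
      have h2 : ∀ y, (((F i (1, y) : ℝ)) : AddCircle (1 : ℝ)) = psi x0 i := by
        intro y
        rw [hF2 i (1, y)]
        change psi (H (1, y)) i = _
        have h3 : H (1, y) = x0 := H.apply_one y
        rw [h3]
      rw [h2 y, h2 y']
    rw [h1 y y0, hbd i 1 y0 hy0]
  refine no_null_cube (m := 2) (fun u i => 2 * F i u - 1) ?_ ?_ ?_ ?_ ?_
  · exact continuous_pi fun i => (continuous_const.mul (F i).continuous).sub continuous_const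
  · intro u hu
    apply psi_ne (H u)
    funext i
    have h1 : F i u = 1 / 2 := by
      have := congrFun hu i
      simp only [Pi.zero_apply] at this
      linarith
    rw [← h1]
    exact (hF2 i u).symm
  · intro t y hy
    funext i
    rw [hbd i t y hy]
    norm_num
  · intro y
    funext i
    rw [hone]
    norm_num
  · intro y
    refine ⟨‖gg (yy y)‖⁻¹, inv_pos.2 (norm_gg_pos y), ?_⟩
    funext i
    rw [hz, qq_val]
    rfl

/-- **Disproof.**  There is a finite graph with sinks `(Γ, S)` whose unordered configuration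
space `B_2(Γ, S)` is not aspherical, its second homotopy group being nonzero at some base
point. -/
theorem result : ∃ (G : FinGraph) (S : Set G.V), ¬ Aspherical (G.UConf S 2) :=
  ⟨R3, SS, fun h => not_trivial (h 2 le_rfl x0)⟩

end Pool.Agent.Results.MP_c15946_gt.ThreeLoops
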